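import Mathlib
import Pool.Agent.H65.GolD
import Pool.Agent.H65.GolD3
import Pool.Agent.H65.GolH3

set_option autoImplicit false

namespace Pool.Agent.Results.MP_811251_al.No

open Pool.Agent.H65.GolD

theorem result : IsGolod P2H := Pool.Agent.H65.GolH.golod

end Pool.Agent.Results.MP_811251_al.No
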